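import Pool.Agent.Helper15.DAK.Stmts

/-! Row TRP of `Pool.Agent.Helper15.DAK.Stmts`: the trace is linear over `DK K`. -/

set_option autoImplicit false

namespace Pool.Agent.Helper15.DAK

open Pool.Agent.Helper15.DAF

theorem st_TRP (h : ST_TRD) : ST_TRP := by
  intro K L _ _ _ _ _ _ _ Φ h1 h2 h3
  have key : ∀ (P : Module.End ℂ K), P ∈ DK K → ∀ (hP : P ∈ DK K) (f : L),
      Algebra.trace K L (Φ ⟨P, hP⟩ f) = P (Algebra.trace K L f) := by
    intro P hP0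
    refine Algebra.adjoin_induction (p := fun P _ => ∀ (hP : P ∈ DK K) (f : L),
      Algebra.trace K L (Φ ⟨P, hP⟩ f) = P (Algebra.trace K L f)) ?_ ?_ ?_ ?_ hP0
    · intro x hx hP f
      rcases hx with ⟨a, ha⟩ | hd
      · rw [h2 ⟨x, hP⟩ a ha, ha]
        change Algebra.trace K L (algebraMap K L a * f) = a * Algebra.trace K L f
        rw [← Algebra.smul_def, map_smul, smul_eq_mul]
      · exact h K L x (Φ ⟨x, hP⟩) hd (h3 ⟨x, hP⟩ hd) (h1 ⟨x, hP⟩) f
    · intro r hP f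
      have e1 : Φ ⟨algebraMap ℂ (Module.End ℂ K) r, hP⟩ =
          algebraMap ℂ (Module.End ℂ L) r := Φ.commutes r
      rw [e1]
      change Algebra.trace K L (r • f) = r • Algebra.trace K L f
      exact LinearMap.map_smul_of_tower (Algebra.trace K L) r f
    · intro x y hx hy ihx ihy hP f
      have e1 : Φ ⟨x + y, hP⟩ = Φ ⟨x, hx⟩ + Φ ⟨y, hy⟩ :=
        map_add Φ ⟨x, hx⟩ ⟨y, hy⟩
      rw [e1, LinearMap.add_apply, map_add, ihx hx, ihy hy, LinearMap.add_apply]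
    · intro x y hx hy ihx ihy hP f
      have e1 : Φ ⟨x * y, hP⟩ = Φ ⟨x, hx⟩ * Φ ⟨y, hy⟩ :=
        map_mul Φ ⟨x, hx⟩ ⟨y, hy⟩
      rw [e1, Module.End.mul_apply, ihx hx, ihy hy, Module.End.mul_apply]
  intro P f
  exact key P.1 P.2 P.2 f

end Pool.Agent.Helper15.DAK
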